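import Pool.Agent.Helper4.MCP.GoalsA

/-!
Project MCP (MP_d8224a_co): the cube lemma with leaks, `G_CUBE`.
-/

set_option autoImplicit false
set_option linter.unusedSectionVars false

namespace Pool.Agent.Helper26.MCP

open Pool.Agent.Helper4.MCP Pool.Agent.Helper26.MCE Pool.Agent.Helper87.MC Finset

variable {G : Type} [AddCommGroup G] [Fintype G]

namespace CUBE

open Classical in
/-- Exchange of one coordinate with an independent copy. -/
lemma resample {N : ℕ} (p : Fin N → G → ℝ) (q : G → ℝ) (i : Fin N) (F : (Fin N → G) → ℝ) :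
    ∑ u : Fin N → G, ∑ w : G, ((∏ j, p j (u j)) * q w) * F (Function.update u i w) =
    ∑ u : Fin N → G, ∑ w : G,
      ((∏ j ∈ univ.erase i, p j (u j)) * q (u i) * p i w) * F u := by
  rw [← Finset.sum_product', ← Finset.sum_product']
  refine Finset.sum_nbij' (fun x => (Function.update x.1 i x.2, x.1 i))
    (fun x => (Function.update x.1 i x.2, x.1 i)) (fun _ _ => by simp) (fun _ _ => by simp)
    (fun x _ => by simp) (fun x _ => by simp) ?_
  intro x _
  have h1 : (∏ j, p j (x.1 j)) = (∏ j ∈ univ.erase i, p j (x.1 j)) * p i (x.1 i) :=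
    (Finset.prod_erase_mul _ _ (mem_univ i)).symm
  have h2 : (∏ j ∈ univ.erase i, p j (Function.update x.1 i x.2 j)) =
      ∏ j ∈ univ.erase i, p j (x.1 j) := by
    refine Finset.prod_congr rfl fun j hj => ?_
    rw [Function.update_of_ne (Finset.ne_of_mem_erase hj)]
  simp only [Function.update_self]
  rw [h2, h1]
  ring

open Classical in
lemma resample_same {N : ℕ} (μ : G → ℝ) (hμ : ∑ w, μ w = 1) (i : Fin N)
    (F : (Fin N → G) → ℝ) :
    ∑ u : Fin N → G, (∏ j, μ (u j)) * F u =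
    ∑ u : Fin N → G, (∏ j, μ (u j)) * ∑ w : G, μ w * F (Function.update u i w) := by
  have h := resample (fun _ => μ) μ i F
  have e1 : ∑ u : Fin N → G, (∏ j, μ (u j)) * ∑ w : G, μ w * F (Function.update u i w) =
      ∑ u : Fin N → G, ∑ w : G, ((∏ j, μ (u j)) * μ w) * F (Function.update u i w) := by
    refine Finset.sum_congr rfl fun u _ => ?_
    rw [Finset.mul_sum]
    refine Finset.sum_congr rfl fun w _ => ?_
    ring
  rw [e1, h]
  refine Finset.sum_congr rfl fun u _ => ?_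
  rw [← Finset.prod_erase_mul _ _ (mem_univ i), ← Finset.sum_mul, ← Finset.mul_sum, hμ, mul_one]

open Classical in
/-- The weights of coordinates which do not matter may be changed. -/
lemma change {N : ℕ} (π μ : G → ℝ) (hπ : ∑ w, π w = 1) (hμ : ∑ w, μ w = 1)
    (F : (Fin N → G) → ℝ) (T : Finset (Fin N))
    (hF : ∀ i ∈ T, ∀ u w, F (Function.update u i w) = F u) :
    ∑ u : Fin N → G, (∏ j, π (u j)) * F u =
    ∑ u : Fin N → G, (∏ j, if j ∈ T then μ (u j) else π (u j)) * F u := by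
  induction T using Finset.induction_on with
  | empty => simp
  | insert i T hi ih =>
    rw [ih fun j hj => hF j (mem_insert_of_mem hj)]
    have h := resample (fun j g => if j ∈ T then μ g else π g) μ i F
    have e1 : ∑ u : Fin N → G, ∑ w : G, ((∏ j, if j ∈ T then μ (u j) else π (u j)) * μ w) *
        F (Function.update u i w) =
        ∑ u : Fin N → G, (∏ j, if j ∈ T then μ (u j) else π (u j)) * F u := by
      refine Finset.sum_congr rfl fun u _ => ?_
      have : ∀ w, ((∏ j, if j ∈ T then μ (u j) else π (u j)) * μ w) *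
        F (Function.update u i w) =
          μ w * ((∏ j, if j ∈ T then μ (u j) else π (u j)) * F u) := by
        intro w
        rw [hF i (mem_insert_self i T) u w]
        ring
      rw [Finset.sum_congr rfl fun w _ => this w, ← Finset.sum_mul, hμ, one_mul]
    have e2 : ∑ u : Fin N → G, ∑ w : G,
        ((∏ j ∈ univ.erase i, if j ∈ T then μ (u j) else π (u j)) * μ (u i) *
          (if i ∈ T then μ w else π w)) * F u =
        ∑ u : Fin N → G, (∏ j, if j ∈ insert i T then μ (u j) else π (u j)) * F u := by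
      refine Finset.sum_congr rfl fun u _ => ?_
      have e3 : (∏ j, if j ∈ insert i T then μ (u j) else π (u j)) =
          (∏ j ∈ univ.erase i, if j ∈ T then μ (u j) else π (u j)) * μ (u i) := by
        rw [← Finset.prod_erase_mul _ _ (mem_univ i)]
        congr 1
        · refine Finset.prod_congr rfl fun j hj => ?_
          have hji : j ≠ i := Finset.ne_of_mem_erase hj
          simp [Finset.mem_insert, hji]
        · simp
      rw [e3]
      simp only [hi, if_false]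
      rw [← Finset.sum_mul, ← Finset.mul_sum, hπ, mul_one]
    rw [← e1, ← e2]
    exact h

open Classical in
/-- Summing out the coordinates in `T`. -/
lemma sumout {N : ℕ} (μ : G → ℝ) (h0 : ∀ w, 0 ≤ μ w) (hμ : ∑ w, μ w = 1) (ε : ℝ) (hε : 0 ≤ ε)
    (T : Finset (Fin N)) (H : (Fin N → G) → ℝ) (Φ : (Fin N → G) → G → ℝ)
    (hΦ0 : ∀ u w, 0 ≤ Φ u w)
    (hH : ∀ i ∈ T, ∀ u w, H (Function.update u i w) = H u)
    (hΦ : ∀ i ∈ T, ∀ u w w', Φ (Function.update u i w) w' = Φ u w')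
    (hb : ∀ u, H u * ∑ w, μ w * Φ u w ≤ ε * H u) :
    ∑ u : Fin N → G, (∏ j, μ (u j)) * (H u * ∏ i ∈ T, Φ u (u i)) ≤
      ε ^ T.card * ∑ u : Fin N → G, (∏ j, μ (u j)) * H u := by
  induction T using Finset.induction_on with
  | empty => simp
  | insert i T hi ih =>
    have ih' := ih (fun j hj => hH j (mem_insert_of_mem hj))
      (fun j hj => hΦ j (mem_insert_of_mem hj))
    rw [resample_same μ hμ i]
    have key : ∀ u : Fin N → G, ∑ w : G, μ w * (H (Function.update u i w) *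
        ∏ j ∈ insert i T, Φ (Function.update u i w) (Function.update u i w j)) ≤
        ε * (H u * ∏ j ∈ T, Φ u (u j)) := by
      intro u
      have e1 : ∀ w, μ w * (H (Function.update u i w) *
          ∏ j ∈ insert i T, Φ (Function.update u i w) (Function.update u i w j)) =
          (μ w * Φ u w) * (H u * ∏ j ∈ T, Φ u (u j)) := by
        intro w
        rw [hH i (mem_insert_self i T), Finset.prod_insert hi,
          hΦ i (mem_insert_self i T), Function.update_self]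
        have : ∏ j ∈ T, Φ (Function.update u i w) (Function.update u i w j) =
            ∏ j ∈ T, Φ u (u j) := by
          refine Finset.prod_congr rfl fun j hj => ?_
          have hji : j ≠ i := fun h => hi (h ▸ hj)
          rw [hΦ i (mem_insert_self i T), Function.update_of_ne hji]
        rw [this]
        ring
      rw [Finset.sum_congr rfl fun w _ => e1 w, ← Finset.sum_mul]
      have hp : 0 ≤ ∏ j ∈ T, Φ u (u j) := Finset.prod_nonneg fun j _ => hΦ0 u (u j)
      have := mul_le_mul_of_nonneg_right (hb u) hp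
      calc (∑ w, μ w * Φ u w) * (H u * ∏ j ∈ T, Φ u (u j))
          = (H u * ∑ w, μ w * Φ u w) * ∏ j ∈ T, Φ u (u j) := by ring
        _ ≤ (ε * H u) * ∏ j ∈ T, Φ u (u j) := this
        _ = ε * (H u * ∏ j ∈ T, Φ u (u j)) := by ring
    calc ∑ u : Fin N → G, (∏ j, μ (u j)) * ∑ w : G, μ w * (H (Function.update u i w) *
        ∏ j ∈ insert i T, Φ (Function.update u i w) (Function.update u i w j))
        ≤ ∑ u : Fin N → G, (∏ j, μ (u j)) * (ε * (H u * ∏ j ∈ T, Φ u (u j))) :=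
          Finset.sum_le_sum fun u _ => mul_le_mul_of_nonneg_left (key u)
            (Finset.prod_nonneg fun j _ => h0 (u j))
      _ = ε * ∑ u : Fin N → G, (∏ j, μ (u j)) * (H u * ∏ j ∈ T, Φ u (u j)) := by
          rw [Finset.mul_sum]
          refine Finset.sum_congr rfl fun u _ => ?_
          ring
      _ ≤ ε * (ε ^ T.card * ∑ u : Fin N → G, (∏ j, μ (u j)) * H u) :=
          mul_le_mul_of_nonneg_left ih' hε
      _ = ε ^ (insert i T).card * ∑ u : Fin N → G, (∏ j, μ (u j)) * H u := by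
          rw [Finset.card_insert_of_notMem hi, pow_succ]
          ring

lemma total {N : ℕ} (μ : G → ℝ) (hμ : ∑ w, μ w = 1) :
    ∑ u : Fin N → G, (∏ j, μ (u j)) = 1 := by
  classical
  have := Finset.prod_univ_sum (fun _ : Fin N => (univ : Finset G)) (fun _ w => μ w)
  rw [Fintype.piFinset_univ] at this
  rw [← this, hμ, Finset.prod_const_one]

/-- The event of the proof. -/
def Ev (D J : Finset G) {N : ℕ} (Λ Λ' : Finset (Fin N)) (y : G) (u : Fin N → G) : Prop :=
  y ∈ J ∧ y + ∑ i ∈ Λ \ Λ', u i ∉ D ∧ (∀ i ∈ Λ', y + ∑ j ∈ Λ \ Λ', u j - u i ∈ D) ∧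
    (2 ≤ (Λ \ Λ').card → ∀ i ∈ Λ \ Λ', y + u i ∈ D ∧ y + u i ∉ J)

lemma det_step {D J : Finset G} (hJD : J ⊆ D) {N : ℕ} {x : G} (hx : x ∈ J) (u : Fin N → G)
    (hu : ∀ i, x + u i ∈ J) (hex : ∃ Λ : Finset (Fin N), x + ∑ i ∈ Λ, u i ∉ D) :
    ∃ Λ Λ' : Finset (Fin N), 2 ≤ Λ.card ∧ Λ' ⊂ Λ ∧ Ev D J Λ Λ' (x + ∑ i ∈ Λ', u i) u := by
  classical
  obtain ⟨Λ, hΛm, hΛ⟩ := Finset.exists_min_image
    (univ.filter fun Λ : Finset (Fin N) => x + ∑ i ∈ Λ, u i ∉ D) Finset.card
    (by obtain ⟨Λ, h⟩ := hex; exact ⟨Λ, by simp [h]⟩)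
  have hΛD : x + ∑ i ∈ Λ, u i ∉ D := by simpa using hΛm
  have hmin : ∀ Λ'' : Finset (Fin N), Λ''.card < Λ.card → x + ∑ i ∈ Λ'', u i ∈ D := by
    intro Λ'' h
    by_contra hc
    exact absurd (hΛ Λ'' (by simp [hc])) (not_le.mpr h)
  have h2 : 2 ≤ Λ.card := by
    by_contra hc
    have : Λ.card = 0 ∨ Λ.card = 1 := by omega
    rcases this with h | h
    · rw [Finset.card_eq_zero] at h
      subst h
      exact hΛD (by simpa using hJD hx)
    · rw [Finset.card_eq_one] at h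
      obtain ⟨i, rfl⟩ := h
      exact hΛD (by simpa using hJD (hu i))
  obtain ⟨Λ', hΛ'm, hΛ'⟩ := Finset.exists_max_image
    (Λ.ssubsets.filter fun Λ' : Finset (Fin N) => x + ∑ i ∈ Λ', u i ∈ J) Finset.card
    ⟨∅, by
      simp only [mem_filter, mem_ssubsets, sum_empty, add_zero]
      exact ⟨Finset.empty_ssubset.mpr (Finset.card_pos.mp (by omega)), hx⟩⟩
  simp only [mem_filter, mem_ssubsets] at hΛ'm hΛ'
  obtain ⟨hss, hJ'⟩ := hΛ'm
  refine ⟨Λ, Λ', h2, hss, hJ', ?_, ?_, ?_⟩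
  · have : x + ∑ i ∈ Λ', u i + ∑ i ∈ Λ \ Λ', u i = x + ∑ i ∈ Λ, u i := by
      rw [add_assoc, add_comm (∑ i ∈ Λ', u i), Finset.sum_sdiff hss.1]
    rw [this]
    exact hΛD
  · intro i hi
    have hiΛ : i ∈ Λ := hss.1 hi
    have : x + ∑ i ∈ Λ', u i + ∑ i ∈ Λ \ Λ', u i - u i = x + ∑ j ∈ Λ.erase i, u j := by
      rw [add_assoc, add_comm (∑ i ∈ Λ', u i), Finset.sum_sdiff hss.1,
        ← Finset.sum_erase_add _ _ hiΛ]
      abel
    rw [this]
    exact hmin _ (Finset.card_erase_lt_of_mem hiΛ)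
  · intro hr i hi
    have hi' := Finset.mem_sdiff.mp hi
    have hins : insert i Λ' ⊂ Λ := by
      refine Finset.ssubset_iff_subset_ne.mpr ⟨Finset.insert_subset hi'.1 hss.1, ?_⟩
      intro he
      have h3 : (Λ \ Λ').card = Λ.card - Λ'.card := Finset.card_sdiff_of_subset hss.1
      have h4 : Λ.card = Λ'.card + 1 := by rw [← he, Finset.card_insert_of_notMem hi'.2]
      omega
    have hs : x + ∑ i ∈ Λ', u i + u i = x + ∑ j ∈ insert i Λ', u j := by
      rw [Finset.sum_insert hi'.2]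
      abel
    rw [hs]
    refine ⟨hmin _ (Finset.card_lt_card hins), fun hc => ?_⟩
    have := hΛ' (insert i Λ') ⟨hins, hc⟩
    rw [Finset.card_insert_of_notMem hi'.2] at this
    omega

open Classical in
/-- The kernel of the bound for a fixed base point `y ∈ J`. -/
lemma bound_y {D J : Finset G} {ε : ℝ} {μ : G → ℝ} (hL : Law D J ε μ) (hε : 0 ≤ ε) {N : ℕ}
    (Λ Λ' : Finset (Fin N)) {y : G} (hy : y ∈ J) :
    ∑ u : Fin N → G, (∏ j, μ (u j)) * (if Ev D J Λ Λ' y u then (1 : ℝ) else 0) ≤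
      ε ^ Λ'.card * (if 2 ≤ (Λ \ Λ').card then ε ^ (Λ \ Λ').card else 1) := by
  set A := Λ \ Λ' with hA
  have hdisj : ∀ i ∈ Λ', ∀ j ∈ A, j ≠ i := by
    intro i hi j hj h
    rw [hA, Finset.mem_sdiff] at hj
    exact hj.2 (h ▸ hi)
  let K : (Fin N → G) → ℝ := fun u =>
    if 2 ≤ A.card then ∏ i ∈ A, (if y + u i ∈ D ∧ y + u i ∉ J then (1 : ℝ) else 0) else 1
  let H : (Fin N → G) → ℝ := fun u => (if y + ∑ i ∈ A, u i ∉ D then (1 : ℝ) else 0) * K u
  let Φ : (Fin N → G) → G → ℝ := fun u w => if y + ∑ i ∈ A, u i - w ∈ D then (1 : ℝ) else 0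
  have hK0 : ∀ u, 0 ≤ K u := by
    intro u
    simp only [K]
    split_ifs
    · exact Finset.prod_nonneg fun i _ => by split_ifs <;> norm_num
    · norm_num
  have hH0 : ∀ u, 0 ≤ H u := fun u => mul_nonneg (by split_ifs <;> norm_num) (hK0 u)
  have hHK : ∀ u, H u ≤ K u := by
    intro u
    simp only [H]
    split_ifs
    · rw [zero_mul]; exact hK0 u
    · rw [one_mul]
  have hP0 : ∀ u : Fin N → G, 0 ≤ ∏ j, μ (u j) := fun u => Finset.prod_nonneg fun j _ => hL.pos _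
  have hsum : ∀ i ∈ Λ', ∀ (u : Fin N → G) (w : G),
      ∑ j ∈ A, Function.update u i w j = ∑ j ∈ A, u j := by
    intro i hi u w
    refine Finset.sum_congr rfl fun j hj => ?_
    rw [Function.update_of_ne (hdisj i hi j hj)]
  have step1 : ∑ u : Fin N → G, (∏ j, μ (u j)) * (if Ev D J Λ Λ' y u then (1 : ℝ) else 0) ≤
      ∑ u : Fin N → G, (∏ j, μ (u j)) * (H u * ∏ i ∈ Λ', Φ u (u i)) := by
    refine Finset.sum_le_sum fun u _ => mul_le_mul_of_nonneg_left ?_ (hP0 u)
    split_ifs with hE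
    · obtain ⟨-, h1, h2, h3⟩ := hE
      have e1 : H u = 1 := by
        simp only [H, K]
        rw [if_pos h1]
        split_ifs with h4
        · rw [one_mul]
          exact Finset.prod_eq_one fun i hi => by rw [if_pos (h3 h4 i hi)]
        · norm_num
      have e2 : ∏ i ∈ Λ', Φ u (u i) = 1 :=
        Finset.prod_eq_one fun i hi => by
          simp only [Φ]
          rw [if_pos (h2 i hi)]
      rw [e1, e2, one_mul]
    · exact mul_nonneg (hH0 u) (Finset.prod_nonneg fun i _ => by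
        simp only [Φ]
        split_ifs <;> norm_num)
  have step2 := sumout μ hL.pos hL.sum ε hε Λ' H Φ
    (fun u w => by simp only [Φ]; split_ifs <;> norm_num)
    (by
      intro i hi u w
      simp only [H, K]
      rw [hsum i hi]
      congr 1
      split_ifs
      · refine Finset.prod_congr rfl fun j hj => ?_
        rw [Function.update_of_ne (hdisj i hi j hj)]
      · rfl)
    (by
      intro i hi u w w'
      simp only [Φ]
      rw [hsum i hi])
    (by
      intro u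
      by_cases hz : y + ∑ i ∈ A, u i ∈ D
      · have : H u = 0 := by
          simp only [H]
          rw [if_neg (not_not.mpr hz), zero_mul]
        rw [this]
        simp
      · have h1 : ∑ w, μ w * Φ u w = TT μ D (y + ∑ i ∈ A, u i) := by
          unfold TT
          refine Finset.sum_congr rfl fun w _ => ?_
          simp only [Φ]
          split_ifs <;> simp
        rw [h1, mul_comm ε]
        exact mul_le_mul_of_nonneg_left (hL.closed _ hz) (hH0 u))
  have step3 : ∑ u : Fin N → G, (∏ j, μ (u j)) * H u ≤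
      (if 2 ≤ A.card then ε ^ A.card else 1) := by
    refine (Finset.sum_le_sum fun u _ => mul_le_mul_of_nonneg_left (hHK u) (hP0 u)).trans ?_
    by_cases h2 : 2 ≤ A.card
    · simp only [K, if_pos h2]
      have := sumout μ hL.pos hL.sum ε hε A (fun _ => 1)
        (fun _ w => if y + w ∈ D ∧ y + w ∉ J then (1 : ℝ) else 0)
        (fun u w => by split_ifs <;> norm_num) (fun _ _ _ _ => rfl) (fun _ _ _ _ _ => rfl)
        (by
          intro u
          rw [one_mul, mul_one]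
          refine le_trans (le_of_eq ?_) (hL.leak y hy)
          refine Finset.sum_congr rfl fun w _ => ?_
          split_ifs <;> simp)
      simp only [one_mul, mul_one, total μ hL.sum] at this
      exact this
    · simp only [K, if_neg h2, mul_one, total μ hL.sum]
      exact le_refl _
  exact step1.trans (step2.trans (mul_le_mul_of_nonneg_left step3 (pow_nonneg hε _)))

open Classical in
/-- The bound for a fixed pair `Λ' ⊂ Λ`. -/
lemma bound_pair {D J J₁ : Finset G} {ε c : ℝ} {μ : G → ℝ} (hL : Law D J ε μ)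
    (hε : 0 ≤ ε) (hc : 1 ≤ c) (π : G → G → ℝ) (h0 : ∀ x ∈ J₁, ∀ w, 0 ≤ π x w)
    (h1 : ∀ x ∈ J₁, ∑ w, π x w = 1) (h2 : ∀ x ∈ J₁, ∀ w, π x w ≤ c * μ w) {N : ℕ}
    (Λ Λ' : Finset (Fin N)) (hs : Λ' ⊂ Λ) :
    ∑ x ∈ J₁, ∑ u : Fin N → G,
      (if Ev D J Λ Λ' (x + ∑ i ∈ Λ', u i) u then ∏ i, π x (u i) else 0) ≤
      c ^ Λ.card * (J.card * (ε ^ Λ'.card *
        (if 2 ≤ (Λ \ Λ').card then ε ^ (Λ \ Λ').card else 1))) := by
  set bnd : ℝ := ε ^ Λ'.card * (if 2 ≤ (Λ \ Λ').card then ε ^ (Λ \ Λ').card else 1) with hbnd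
  have hc0 : (0 : ℝ) ≤ c := by linarith
  let F : G → (Fin N → G) → ℝ := fun x u =>
    if Ev D J Λ Λ' (x + ∑ i ∈ Λ', u i) u then (1 : ℝ) else 0
  have hF0 : ∀ x u, 0 ≤ F x u := fun x u => by simp only [F]; split_ifs <;> norm_num
  have hFi : ∀ x, ∀ i ∈ Λᶜ, ∀ u w, F x (Function.update u i w) = F x u := by
    intro x i hi u w
    have hiΛ : i ∉ Λ := Finset.mem_compl.mp hi
    have e1 : ∀ T : Finset (Fin N), T ⊆ Λ → ∑ j ∈ T, Function.update u i w j = ∑ j ∈ T, u j := by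
      intro T hT
      refine Finset.sum_congr rfl fun j hj => ?_
      rw [Function.update_of_ne]
      exact fun h => hiΛ (h ▸ hT hj)
    have e2 : ∀ j ∈ Λ, Function.update u i w j = u j := fun j hj => by
      rw [Function.update_of_ne]
      exact fun h => hiΛ (h ▸ hj)
    have : Ev D J Λ Λ' (x + ∑ j ∈ Λ', Function.update u i w j) (Function.update u i w) ↔
        Ev D J Λ Λ' (x + ∑ j ∈ Λ', u j) u := by
      unfold Ev
      rw [e1 Λ' hs.1, e1 (Λ \ Λ') Finset.sdiff_subset]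
      refine and_congr_right fun _ => and_congr_right fun _ => and_congr ?_ ?_
      · refine forall₂_congr fun j hj => ?_
        rw [e2 j (hs.1 hj)]
      · refine imp_congr_right fun _ => forall₂_congr fun j hj => ?_
        rw [e2 j (Finset.mem_sdiff.mp hj).1]
    simp only [F]
    rw [if_congr this rfl rfl]
  have step1 : ∀ x ∈ J₁, ∑ u : Fin N → G,
      (if Ev D J Λ Λ' (x + ∑ i ∈ Λ', u i) u then ∏ i, π x (u i) else 0) ≤
      c ^ Λ.card * ∑ u : Fin N → G, (∏ j, μ (u j)) * F x u := by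
    intro x hx
    have e1 : ∑ u : Fin N → G,
      (if Ev D J Λ Λ' (x + ∑ i ∈ Λ', u i) u then ∏ i, π x (u i) else 0) =
        ∑ u : Fin N → G, (∏ j, π x (u j)) * F x u := by
      refine Finset.sum_congr rfl fun u _ => ?_
      simp only [F]
      split_ifs <;> simp
    rw [e1, change (π x) μ (h1 x hx) hL.sum (F x) Λᶜ (hFi x), Finset.mul_sum]
    refine Finset.sum_le_sum fun u _ => ?_
    have e2 : (∏ j, if j ∈ Λᶜ then μ (u j) else π x (u j)) ≤
        c ^ Λ.card * ∏ j, μ (u j) := by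
      have e3 : c ^ Λ.card * ∏ j, μ (u j) = ∏ j, ((if j ∈ Λ then c else 1) * μ (u j)) := by
        rw [Finset.prod_mul_distrib]
        congr 1
        rw [Finset.prod_ite_mem, Finset.univ_inter, Finset.prod_const]
      rw [e3]
      refine Finset.prod_le_prod (fun j _ => ?_) fun j _ => ?_
      · split_ifs
        · exact hL.pos _
        · exact h0 x hx _
      · by_cases hj : j ∈ Λ
        · rw [if_neg (by simp [hj]), if_pos hj]
          exact h2 x hx _
        · rw [if_pos (by simp [hj]), if_neg hj, one_mul]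
    calc (∏ j, if j ∈ Λᶜ then μ (u j) else π x (u j)) * F x u
        ≤ (c ^ Λ.card * ∏ j, μ (u j)) * F x u := mul_le_mul_of_nonneg_right e2 (hF0 x u)
      _ = c ^ Λ.card * ((∏ j, μ (u j)) * F x u) := by ring
  have hP0 : ∀ u : Fin N → G, 0 ≤ ∏ j, μ (u j) := fun u => Finset.prod_nonneg fun j _ => hL.pos _
  have step2 : ∑ x ∈ J₁, ∑ u : Fin N → G, (∏ j, μ (u j)) * F x u ≤ J.card * bnd := by
    calc ∑ x ∈ J₁, ∑ u : Fin N → G, (∏ j, μ (u j)) * F x u
        ≤ ∑ x : G, ∑ u : Fin N → G, (∏ j, μ (u j)) * F x u :=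
          Finset.sum_le_sum_of_subset_of_nonneg (subset_univ _) fun x _ _ =>
            Finset.sum_nonneg fun u _ => mul_nonneg (hP0 u) (hF0 x u)
      _ = ∑ u : Fin N → G, ∑ x : G, (∏ j, μ (u j)) * F x u := Finset.sum_comm
      _ = ∑ u : Fin N → G, ∑ y : G, (∏ j, μ (u j)) * (if Ev D J Λ Λ' y u then (1 : ℝ) else 0) := by
          refine Finset.sum_congr rfl fun u _ => ?_
          exact Fintype.sum_equiv (Equiv.addRight (∑ i ∈ Λ', u i)) _ _ fun x => rfl
      _ = ∑ y : G, ∑ u : Fin N → G, (∏ j, μ (u j)) * (if Ev D J Λ Λ' y u then (1 : ℝ) else 0) :=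
          Finset.sum_comm
      _ = ∑ y ∈ J, ∑ u : Fin N → G, (∏ j, μ (u j)) * (if Ev D J Λ Λ' y u then (1 : ℝ) else 0) := by
          symm
          refine Finset.sum_subset (subset_univ _) fun y _ hy => ?_
          refine Finset.sum_eq_zero fun u _ => ?_
          rw [if_neg (fun h => hy h.1), mul_zero]
      _ ≤ ∑ y ∈ J, bnd := Finset.sum_le_sum fun y hy => bound_y hL hε Λ Λ' hy
      _ = J.card * bnd := by rw [Finset.sum_const, nsmul_eq_mul]
  calc ∑ x ∈ J₁, ∑ u : Fin N → G,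
      (if Ev D J Λ Λ' (x + ∑ i ∈ Λ', u i) u then ∏ i, π x (u i) else 0)
      ≤ ∑ x ∈ J₁, c ^ Λ.card * ∑ u : Fin N → G, (∏ j, μ (u j)) * F x u :=
        Finset.sum_le_sum step1
    _ = c ^ Λ.card * ∑ x ∈ J₁, ∑ u : Fin N → G, (∏ j, μ (u j)) * F x u := by
        rw [Finset.mul_sum]
    _ ≤ c ^ Λ.card * (J.card * bnd) := mul_le_mul_of_nonneg_left step2 (pow_nonneg hc0 _)

/-- The sum over the sets with at least two elements. -/
lemma s1 (N : ℕ) (a : ℝ) (ha : 0 ≤ a) (hNa : N * a ≤ 1) :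
    ∑ Λ ∈ univ.filter (fun Λ : Finset (Fin N) => 2 ≤ Λ.card), a ^ Λ.card ≤ (N * a) ^ 2 := by
  classical
  have h1 : ∑ Λ : Finset (Fin N), a ^ Λ.card = (a + 1) ^ N := by
    have := Finset.sum_pow_mul_eq_add_pow a (1 : ℝ) (univ : Finset (Fin N))
    simp only [one_pow, mul_one, Finset.powerset_univ, Finset.card_univ, Fintype.card_fin] at this
    exact this
  have h2 : 1 + N * a ≤ ∑ Λ ∈ univ.filter (fun Λ : Finset (Fin N) => ¬ 2 ≤ Λ.card), a ^ Λ.card := by
    have h3 : ∑ Λ ∈ insert ∅ ((univ : Finset (Fin N)).image fun i => ({i} : Finset (Fin N))),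
        a ^ Λ.card = 1 + N * a := by
      rw [Finset.sum_insert, Finset.card_empty, pow_zero, Finset.sum_image]
      · simp
      · intro i _ j _ h
        exact Finset.singleton_injective h
      · simp
    rw [← h3]
    refine Finset.sum_le_sum_of_subset_of_nonneg ?_ fun Λ _ _ => pow_nonneg ha _
    intro Λ hΛ
    simp only [mem_insert, mem_image, mem_univ, true_and, mem_filter] at hΛ ⊢
    rcases hΛ with rfl | ⟨i, rfl⟩ <;> simp
  have h4 := Finset.sum_filter_add_sum_filter_not (univ : Finset (Finset (Fin N)))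
    (fun Λ => 2 ≤ Λ.card) (fun Λ => a ^ Λ.card)
  have h5 : (a + 1) ^ N ≤ Real.exp (N * a) := by
    have : a + 1 ≤ Real.exp a := Real.add_one_le_exp a
    calc (a + 1) ^ N ≤ (Real.exp a) ^ N := pow_le_pow_left₀ (by linarith) this N
      _ = Real.exp (N * a) := by rw [← Real.exp_nat_mul]
  have h6 : Real.exp (N * a) ≤ 1 + N * a + (N * a) ^ 2 := by
    have hna : 0 ≤ N * a := mul_nonneg (Nat.cast_nonneg _) ha
    have := Real.abs_exp_sub_one_sub_id_le (x := N * a) (by rw [abs_of_nonneg hna]; exact hNa)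
    have := (abs_le.mp this).2
    linarith
  linarith [h1, h2, h4, h5, h6]

lemma s2 (N : ℕ) (a : ℝ) (ha : 0 ≤ a) (hNa : N * a ≤ 1) :
    ∑ Λ ∈ univ.filter (fun Λ : Finset (Fin N) => 2 ≤ Λ.card), a ^ (Λ.card - 1) ≤
      (N : ℝ) ^ 2 * a := by
  rcases eq_or_lt_of_le ha with h | h
  · subst h
    rw [mul_zero]
    refine le_of_eq (Finset.sum_eq_zero fun Λ hΛ => ?_)
    have : 2 ≤ Λ.card := (mem_filter.mp hΛ).2
    exact zero_pow (by omega)
  · have h1 := s1 N a ha hNa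
    have h2 : a * ∑ Λ ∈ univ.filter (fun Λ : Finset (Fin N) => 2 ≤ Λ.card), a ^ (Λ.card - 1) =
        ∑ Λ ∈ univ.filter (fun Λ : Finset (Fin N) => 2 ≤ Λ.card), a ^ Λ.card := by
      rw [Finset.mul_sum]
      refine Finset.sum_congr rfl fun Λ hΛ => ?_
      have : 2 ≤ Λ.card := (mem_filter.mp hΛ).2
      rw [mul_comm, ← pow_succ]
      congr 1
      omega
    have h3 : a * ∑ Λ ∈ univ.filter (fun Λ : Finset (Fin N) => 2 ≤ Λ.card), a ^ (Λ.card - 1) ≤
        a * ((N : ℝ) ^ 2 * a) := by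
      rw [h2]
      calc _ ≤ (N * a) ^ 2 := h1
        _ = a * ((N : ℝ) ^ 2 * a) := by ring
    exact le_of_mul_le_mul_left h3 h

/-- The sum over the proper subsets. -/
lemma inner {N : ℕ} (Λ : Finset (Fin N)) (ε : ℝ) (hε : 0 ≤ ε) :
    ∑ Λ' ∈ Λ.ssubsets, ε ^ Λ'.card * (if 2 ≤ (Λ \ Λ').card then ε ^ (Λ \ Λ').card else 1) ≤
      2 ^ Λ.card * ε ^ Λ.card + Λ.card * ε ^ (Λ.card - 1) := by
  classical
  have h1 : ∀ Λ' ∈ Λ.ssubsets,
      ε ^ Λ'.card * (if 2 ≤ (Λ \ Λ').card then ε ^ (Λ \ Λ').card else 1) ≤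
        ε ^ Λ.card + (if (Λ \ Λ').card = 1 then ε ^ (Λ.card - 1) else 0) := by
    intro Λ' hΛ'
    have hs := Finset.mem_ssubsets.mp hΛ'
    have hc : (Λ \ Λ').card = Λ.card - Λ'.card := Finset.card_sdiff_of_subset hs.1
    have hlt := Finset.card_lt_card hs
    by_cases h2 : 2 ≤ (Λ \ Λ').card
    · rw [if_pos h2, if_neg (by omega), add_zero, ← pow_add]
      have : Λ'.card + (Λ \ Λ').card = Λ.card := by omega
      rw [this]
    · have h3 : (Λ \ Λ').card = 1 := by omega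
      rw [if_neg h2, if_pos h3, mul_one]
      have : Λ'.card = Λ.card - 1 := by omega
      rw [this]
      have := pow_nonneg hε Λ.card
      linarith
  refine (Finset.sum_le_sum h1).trans ?_
  rw [Finset.sum_add_distrib]
  refine add_le_add ?_ ?_
  · rw [Finset.sum_const, nsmul_eq_mul]
    refine mul_le_mul_of_nonneg_right ?_ (pow_nonneg hε _)
    have : Λ.ssubsets.card ≤ Λ.powerset.card := Finset.card_le_card (by
      intro x hx
      exact Finset.mem_powerset.mpr (Finset.mem_ssubsets.mp hx).1)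
    rw [Finset.card_powerset] at this
    exact_mod_cast this
  · rw [← Finset.sum_filter, Finset.sum_const, nsmul_eq_mul]
    refine mul_le_mul_of_nonneg_right ?_ (pow_nonneg hε _)
    have h4 : (Λ.ssubsets.filter fun Λ' => (Λ \ Λ').card = 1) ⊆ Λ.image fun i => Λ.erase i := by
      intro Λ' hΛ'
      rw [mem_filter, Finset.mem_ssubsets] at hΛ'
      obtain ⟨hs, h1⟩ := hΛ'
      obtain ⟨i, hi⟩ := Finset.card_eq_one.mp h1
      refine Finset.mem_image.mpr ⟨i, ?_, ?_⟩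
      · have : i ∈ Λ \ Λ' := by rw [hi]; exact mem_singleton_self i
        exact (mem_sdiff.mp this).1
      · rw [Finset.erase_eq, ← hi, Finset.sdiff_sdiff_eq_self hs.1]
    have := (Finset.card_le_card h4).trans Finset.card_image_le
    exact_mod_cast this

lemma two_pow_ge : ∀ s : ℕ, 1 ≤ s → s ≤ 2 ^ (s - 1) := by
  intro s hs
  obtain ⟨t, rfl⟩ : ∃ t, s = t + 1 := ⟨s - 1, by omega⟩
  simp only [Nat.add_sub_cancel]
  exact Nat.lt_two_pow_self

lemma numeric (N : ℕ) (c ε : ℝ) (hε : 0 ≤ ε) (hε1 : ε ≤ 1) (hc : 1 ≤ c)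
    (hN : N * c * ε ≤ 1 / 8) :
    ∑ Λ ∈ univ.filter (fun Λ : Finset (Fin N) => 2 ≤ Λ.card),
      c ^ Λ.card * (2 ^ Λ.card * ε ^ Λ.card + Λ.card * ε ^ (Λ.card - 1)) ≤
      6 * (N : ℝ) ^ 2 * c ^ 2 * ε := by
  have hc0 : (0 : ℝ) ≤ c := by linarith
  have ha : 0 ≤ 2 * c * ε := by positivity
  have hNa : N * (2 * c * ε) ≤ 1 := by nlinarith
  have h1 := s1 N (2 * c * ε) ha hNa
  have h2 := s2 N (2 * c * ε) ha hNa
  have h3 : ∀ Λ ∈ univ.filter (fun Λ : Finset (Fin N) => 2 ≤ Λ.card),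
      c ^ Λ.card * (2 ^ Λ.card * ε ^ Λ.card + Λ.card * ε ^ (Λ.card - 1)) ≤
      (2 * c * ε) ^ Λ.card + c * (2 * c * ε) ^ (Λ.card - 1) := by
    intro Λ hΛ
    have hs : 2 ≤ Λ.card := (mem_filter.mp hΛ).2
    obtain ⟨t, ht⟩ : ∃ t, Λ.card = t + 1 := ⟨Λ.card - 1, by omega⟩
    rw [ht]
    simp only [Nat.add_sub_cancel]
    have h4 : ((t + 1 : ℕ) : ℝ) ≤ 2 ^ t := by
      have := two_pow_ge (t + 1) (by omega)
      simp only [Nat.add_sub_cancel] at this
      exact_mod_cast this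
    have h5 : c ^ (t + 1) * ((t + 1 : ℕ) * ε ^ t) ≤ c * (2 * c * ε) ^ t := by
      calc c ^ (t + 1) * ((t + 1 : ℕ) * ε ^ t) = (c ^ (t + 1) * ε ^ t) * ((t + 1 : ℕ) : ℝ) := by ring
        _ ≤ (c ^ (t + 1) * ε ^ t) * 2 ^ t :=
            mul_le_mul_of_nonneg_left h4 (mul_nonneg (pow_nonneg hc0 _) (pow_nonneg hε _))
        _ = c * (2 * c * ε) ^ t := by ring
    calc c ^ (t + 1) * (2 ^ (t + 1) * ε ^ (t + 1) + (t + 1 : ℕ) * ε ^ t)
        = (2 * c * ε) ^ (t + 1) + c ^ (t + 1) * ((t + 1 : ℕ) * ε ^ t) := by ring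
      _ ≤ _ := by linarith
  refine (Finset.sum_le_sum h3).trans ?_
  rw [Finset.sum_add_distrib, ← Finset.mul_sum]
  have h6 : c * ∑ Λ ∈ univ.filter (fun Λ : Finset (Fin N) => 2 ≤ Λ.card),
      (2 * c * ε) ^ (Λ.card - 1) ≤ c * ((N : ℝ) ^ 2 * (2 * c * ε)) :=
    mul_le_mul_of_nonneg_left h2 hc0
  have h7 : ε ^ 2 ≤ ε := by nlinarith
  have h8 : (N * (2 * c * ε)) ^ 2 ≤ 4 * (N : ℝ) ^ 2 * c ^ 2 * ε := by
    calc (N * (2 * c * ε)) ^ 2 = (4 * (N : ℝ) ^ 2 * c ^ 2) * ε ^ 2 := by ring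
      _ ≤ (4 * (N : ℝ) ^ 2 * c ^ 2) * ε := mul_le_mul_of_nonneg_left h7 (by positivity)
      _ = _ := by ring
  have h9 : c * ((N : ℝ) ^ 2 * (2 * c * ε)) = 2 * (N : ℝ) ^ 2 * c ^ 2 * ε := by ring
  linarith

end CUBE

open Classical in
theorem goalCUBE : G_CUBE := by
  intro G _ _ D J J₁ μ ε c π N hJD hJ hL hε hε1 hc hN h0 h1 h2 h3
  have hc0 : (0 : ℝ) ≤ c := by linarith
  have step1 : ∀ x ∈ J₁, ∀ u : Fin N → G,
      (if ∃ Λ : Finset (Fin N), x + ∑ i ∈ Λ, u i ∉ D then ∏ i, π x (u i) else 0) ≤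
      ∑ Λ ∈ univ.filter (fun Λ : Finset (Fin N) => 2 ≤ Λ.card), ∑ Λ' ∈ Λ.ssubsets,
        (if CUBE.Ev D J Λ Λ' (x + ∑ i ∈ Λ', u i) u then ∏ i, π x (u i) else 0) := by
    intro x hx u
    have hP : 0 ≤ ∏ i, π x (u i) := Finset.prod_nonneg fun i _ => h0 x hx _
    have hnn : ∀ Λ Λ' : Finset (Fin N),
        0 ≤ (if CUBE.Ev D J Λ Λ' (x + ∑ i ∈ Λ', u i) u then ∏ i, π x (u i) else 0) := by
      intro Λ Λ'
      split_ifs
      · exact hP
      · exact le_refl _
    by_cases hex : ∃ Λ : Finset (Fin N), x + ∑ i ∈ Λ, u i ∉ D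
    · rw [if_pos hex]
      by_cases hz : ∏ i, π x (u i) = 0
      · rw [hz]
        simp
      · have hu : ∀ i, x + u i ∈ J := fun i => h3 x hx _ fun h => hz
          (Finset.prod_eq_zero (mem_univ i) h)
        obtain ⟨Λ, Λ', hc2, hs, hE⟩ := CUBE.det_step hJD (hJ hx) u hu hex
        calc ∏ i, π x (u i)
            = (if CUBE.Ev D J Λ Λ' (x + ∑ i ∈ Λ', u i) u then ∏ i, π x (u i) else 0) := by
              rw [if_pos hE]
          _ ≤ ∑ Λ' ∈ Λ.ssubsets,
              (if CUBE.Ev D J Λ Λ' (x + ∑ i ∈ Λ', u i) u then ∏ i, π x (u i) else 0) :=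
              Finset.single_le_sum (f := fun Λ' => if CUBE.Ev D J Λ Λ' (x + ∑ i ∈ Λ', u i) u then
                ∏ i, π x (u i) else 0) (fun Λ' _ => hnn Λ Λ') (Finset.mem_ssubsets.mpr hs)
          _ ≤ _ := Finset.single_le_sum (f := fun Λ => ∑ Λ' ∈ Λ.ssubsets,
              (if CUBE.Ev D J Λ Λ' (x + ∑ i ∈ Λ', u i) u then ∏ i, π x (u i) else 0))
              (fun Λ _ => Finset.sum_nonneg fun Λ' _ => hnn Λ Λ')
              (mem_filter.mpr ⟨mem_univ _, hc2⟩)
    · rw [if_neg hex]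
      exact Finset.sum_nonneg fun Λ _ => Finset.sum_nonneg fun Λ' _ => hnn Λ Λ'
  calc ∑ x ∈ J₁, ∑ u : Fin N → G,
      (if ∃ Λ : Finset (Fin N), x + ∑ i ∈ Λ, u i ∉ D then ∏ i, π x (u i) else 0)
      ≤ ∑ x ∈ J₁, ∑ u : Fin N → G,
        ∑ Λ ∈ univ.filter (fun Λ : Finset (Fin N) => 2 ≤ Λ.card), ∑ Λ' ∈ Λ.ssubsets,
        (if CUBE.Ev D J Λ Λ' (x + ∑ i ∈ Λ', u i) u then ∏ i, π x (u i) else 0) :=
        Finset.sum_le_sum fun x hx => Finset.sum_le_sum fun u _ => step1 x hx u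
    _ = ∑ Λ ∈ univ.filter (fun Λ : Finset (Fin N) => 2 ≤ Λ.card), ∑ Λ' ∈ Λ.ssubsets,
        ∑ x ∈ J₁, ∑ u : Fin N → G,
        (if CUBE.Ev D J Λ Λ' (x + ∑ i ∈ Λ', u i) u then ∏ i, π x (u i) else 0) := by
        have e1 : ∀ x ∈ J₁, ∑ u : Fin N → G,
            ∑ Λ ∈ univ.filter (fun Λ : Finset (Fin N) => 2 ≤ Λ.card), ∑ Λ' ∈ Λ.ssubsets,
            (if CUBE.Ev D J Λ Λ' (x + ∑ i ∈ Λ', u i) u then ∏ i, π x (u i) else 0) =
            ∑ Λ ∈ univ.filter (fun Λ : Finset (Fin N) => 2 ≤ Λ.card), ∑ Λ' ∈ Λ.ssubsets,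
            ∑ u : Fin N → G,
            (if CUBE.Ev D J Λ Λ' (x + ∑ i ∈ Λ', u i) u then ∏ i, π x (u i) else 0) := by
          intro x _
          rw [Finset.sum_comm]
          refine Finset.sum_congr rfl fun Λ _ => ?_
          rw [Finset.sum_comm]
        rw [Finset.sum_congr rfl e1, Finset.sum_comm]
        refine Finset.sum_congr rfl fun Λ _ => ?_
        rw [Finset.sum_comm]
    _ ≤ ∑ Λ ∈ univ.filter (fun Λ : Finset (Fin N) => 2 ≤ Λ.card), ∑ Λ' ∈ Λ.ssubsets,
        c ^ Λ.card * (J.card * (ε ^ Λ'.card *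
        (if 2 ≤ (Λ \ Λ').card then ε ^ (Λ \ Λ').card else 1))) :=
        Finset.sum_le_sum fun Λ _ => Finset.sum_le_sum fun Λ' hΛ' =>
          CUBE.bound_pair hL hε hc π h0 h1 h2 Λ Λ' (Finset.mem_ssubsets.mp hΛ')
    _ = ∑ Λ ∈ univ.filter (fun Λ : Finset (Fin N) => 2 ≤ Λ.card), (c ^ Λ.card * 
        (∑ Λ' ∈ Λ.ssubsets, ε ^ Λ'.card *
        (if 2 ≤ (Λ \ Λ').card then ε ^ (Λ \ Λ').card else 1))) * J.card := by
        refine Finset.sum_congr rfl fun Λ _ => ?_
        rw [Finset.mul_sum, Finset.sum_mul]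
        refine Finset.sum_congr rfl fun Λ' _ => ?_
        ring
    _ ≤ ∑ Λ ∈ univ.filter (fun Λ : Finset (Fin N) => 2 ≤ Λ.card), (c ^ Λ.card * 
        (2 ^ Λ.card * ε ^ Λ.card + Λ.card * ε ^ (Λ.card - 1))) * J.card :=
        Finset.sum_le_sum fun Λ _ => mul_le_mul_of_nonneg_right
          (mul_le_mul_of_nonneg_left (CUBE.inner Λ ε hε) (pow_nonneg hc0 _)) (Nat.cast_nonneg _)
    _ = (∑ Λ ∈ univ.filter (fun Λ : Finset (Fin N) => 2 ≤ Λ.card), c ^ Λ.card * 
        (2 ^ Λ.card * ε ^ Λ.card + Λ.card * ε ^ (Λ.card - 1))) * J.card := by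
        rw [Finset.sum_mul]
    _ ≤ (6 * (N : ℝ) ^ 2 * c ^ 2 * ε) * J.card :=
        mul_le_mul_of_nonneg_right (CUBE.numeric N c ε hε hε1 hc hN) (Nat.cast_nonneg _)

end Pool.Agent.Helper26.MCP
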