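import Pool.Agent.Helper26.MCP.CUBE

/-!
Project MCP (MP_d8224a_co): popular hits at one point fill a coset, `G_NCX`.
-/

set_option autoImplicit false
set_option linter.unusedSectionVars false

namespace Pool.Agent.Helper26.MCP

open Pool.Agent.Helper4.MCP Pool.Agent.Helper26.MCE Pool.Agent.Helper87.MC Finset

variable {G : Type} [AddCommGroup G] [Fintype G]

namespace NCX

open Classical in
/-- The set of the points `y ∈ x + V` whose cubes over the first `j` shifts stay in `D`. -/
noncomputable def ES (D : Finset G) (x : G) (V : AddSubgroup G) {N : ℕ} (u : Fin N → G)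
    (j : ℕ) : Finset G :=
  univ.filter fun y => y - x ∈ V ∧
    ∀ Λ : Finset (Fin N), (∀ i ∈ Λ, (i : ℕ) < j) → y + ∑ i ∈ Λ, u i ∈ D

lemma mem_ES {D : Finset G} {x : G} {V : AddSubgroup G} {N : ℕ} {u : Fin N → G} {j : ℕ} {y : G} :
    y ∈ ES D x V u j ↔ y - x ∈ V ∧
      ∀ Λ : Finset (Fin N), (∀ i ∈ Λ, (i : ℕ) < j) → y + ∑ i ∈ Λ, u i ∈ D := by
  unfold ES
  simp only [mem_filter, mem_univ, true_and]

lemma ES_succ {D : Finset G} {x : G} {V : AddSubgroup G} {N : ℕ} {u : Fin N → G} {j : ℕ}
    (hj : j < N) (hu : u ⟨j, hj⟩ ∈ V) (y : G) :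
    y ∈ ES D x V u (j + 1) ↔ y ∈ ES D x V u j ∧ y + u ⟨j, hj⟩ ∈ ES D x V u j := by
  classical
  rw [mem_ES, mem_ES, mem_ES]
  constructor
  · rintro ⟨h1, h2⟩
    refine ⟨⟨h1, fun Λ hΛ => h2 Λ fun i hi => Nat.lt_succ_of_lt (hΛ i hi)⟩, ?_, fun Λ hΛ => ?_⟩
    · have : y + u ⟨j, hj⟩ - x = (y - x) + u ⟨j, hj⟩ := by abel
      rw [this]
      exact V.add_mem h1 hu
    · have hn : (⟨j, hj⟩ : Fin N) ∉ Λ := fun h => absurd (hΛ _ h) (lt_irrefl _)
      have := h2 (insert ⟨j, hj⟩ Λ) (by
        intro i hi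
        rcases Finset.mem_insert.mp hi with rfl | hi
        · exact Nat.lt_succ_self j
        · exact Nat.lt_succ_of_lt (hΛ i hi))
      rw [Finset.sum_insert hn, ← add_assoc] at this
      exact this
  · rintro ⟨⟨h1, h2⟩, h3, h4⟩
    refine ⟨h1, fun Λ hΛ => ?_⟩
    by_cases hm : (⟨j, hj⟩ : Fin N) ∈ Λ
    · have := h4 (Λ.erase ⟨j, hj⟩) (by
        intro i hi
        have hi' := Finset.mem_erase.mp hi
        have h5 := hΛ i hi'.2
        have h6 : (i : ℕ) ≠ j := fun h => hi'.1 (Fin.ext h)
        omega)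
      rw [← Finset.add_sum_erase _ _ hm, ← add_assoc]
      exact this
    · refine h2 Λ fun i hi => ?_
      have h5 := hΛ i hi
      have h6 : (i : ℕ) ≠ j := fun h => hm (by
        have : i = ⟨j, hj⟩ := Fin.ext h
        rw [← this]; exact hi)
      omega

lemma ES_update (D : Finset G) (x : G) (V : AddSubgroup G) {N : ℕ} (u : Fin N → G) {j : ℕ}
    (hj : j < N) (w : G) : ES D x V (Function.update u ⟨j, hj⟩ w) j = ES D x V u j := by
  classical
  ext y
  rw [mem_ES, mem_ES]
  refine and_congr_right fun _ => forall₂_congr fun Λ hΛ => ?_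
  have : ∑ i ∈ Λ, Function.update u ⟨j, hj⟩ w i = ∑ i ∈ Λ, u i := by
    refine Finset.sum_congr rfl fun i hi => ?_
    rw [Function.update_of_ne]
    intro h
    have := hΛ i hi
    rw [h] at this
    exact lt_irrefl _ this
  rw [this]

open Classical in
/-- The variable `X j`. -/
noncomputable def XX (D : Finset G) (x : G) (V : AddSubgroup G) {N : ℕ} (u : Fin N → G)
    (j : ℕ) : ℝ :=
  if x ∈ ES D x V u j then Real.log ((ES D x V u j).card : ℝ) else 0

lemma XX_nonneg (D : Finset G) (x : G) (V : AddSubgroup G) {N : ℕ} (u : Fin N → G) (j : ℕ) :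
    0 ≤ XX D x V u j := by
  unfold XX
  split_ifs
  · exact Real.log_natCast_nonneg _
  · exact le_refl _

lemma XX_le (D : Finset G) (x : G) (V : AddSubgroup G) {N : ℕ} (u : Fin N → G) (j Q : ℕ)
    (hQ : Fintype.card G ≤ 2 ^ Q) : XX D x V u j ≤ Q := by
  unfold XX
  split_ifs with h
  · exact log_le Q hQ _
  · exact Nat.cast_nonneg _
where
  log_le (Q : ℕ) (hQ : Fintype.card G ≤ 2 ^ Q) (E : Finset G) : Real.log (E.card : ℝ) ≤ Q := by
    rcases Nat.eq_zero_or_pos E.card with h | h
    · rw [h]; simp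
    · have h1 : (E.card : ℝ) ≤ 2 ^ Q := by
        exact_mod_cast (Finset.card_le_univ E).trans hQ
      have h2 : Real.log (E.card : ℝ) ≤ Real.log (2 ^ Q) :=
        Real.log_le_log (by exact_mod_cast h) h1
      rw [Real.log_pow] at h2
      have h3 : Real.log 2 ≤ 1 := by
        have := Real.log_two_lt_d9
        linarith
      have h4 : (Q : ℝ) * Real.log 2 ≤ Q * 1 := mul_le_mul_of_nonneg_left h3 (Nat.cast_nonneg _)
      linarith

lemma XX_succ {D : Finset G} {x : G} {V : AddSubgroup G} {N : ℕ} {u : Fin N → G} {j : ℕ}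
    (hj : j < N) (hu : u ⟨j, hj⟩ ∈ V) : XX D x V u (j + 1) ≤ XX D x V u j := by
  by_cases h : x ∈ ES D x V u (j + 1)
  · have h1 := (ES_succ hj hu x).mp h
    unfold XX
    rw [if_pos h, if_pos h1.1]
    refine Real.log_le_log (by exact_mod_cast Finset.card_pos.mpr ⟨x, h⟩) ?_
    have : ES D x V u (j + 1) ⊆ ES D x V u j := fun y hy => ((ES_succ hj hu y).mp hy).1
    exact_mod_cast Finset.card_le_card this
  · have : XX D x V u (j + 1) = 0 := by
      unfold XX
      rw [if_neg h]
    rw [this]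
    exact XX_nonneg _ _ _ _ _

open Classical in
/-- Telescoping: one of the steps is short in mean. -/
lemma short (N Q : ℕ) (hN : 0 < N) (f : ℕ → ℝ) (h0 : f 0 ≤ Q) (hf : 0 ≤ f N) :
    ∃ j < N, f j - f (j + 1) ≤ (Q : ℝ) / N := by
  by_contra hc
  push Not at hc
  have h1 : ∑ j ∈ range N, (Q : ℝ) / N < ∑ j ∈ range N, (f j - f (j + 1)) :=
    Finset.sum_lt_sum_of_nonempty ⟨0, by simpa using hN⟩ fun j hj => hc j (mem_range.mp hj)
  rw [Finset.sum_range_sub', Finset.sum_const, card_range, nsmul_eq_mul] at h1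
  have hN' : (N : ℝ) ≠ 0 := by exact_mod_cast hN.ne'
  rw [mul_div_cancel₀ _ hN'] at h1
  linarith

end NCX

open Classical in
theorem goalNCX (hLA : Pool.Agent.Helper26.MCE.G_LA) : G_NCX := by
  intro G _ _ D J μ p ε κ b r N Q x V hQ hQ1 hJD hL hε hκ hκ1 hb hx hp hp1 hr hrb hmin hexit hN
    hεb
  have hN0 : 0 < N := by
    rcases Nat.eq_zero_or_pos N with h | h
    · subst h
      have : (1 : ℝ) ≤ Q := by exact_mod_cast hQ1
      simp only [Nat.cast_zero, mul_zero] at hN
      linarith
    · exact h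
  have hNr : (0 : ℝ) < N := by exact_mod_cast hN0
  have hp0 : ∀ w, 0 ≤ p w := by
    intro w
    rw [hp]
    split_ifs
    · exact mul_nonneg hr (hL.pos w)
    · exact le_refl _
  have hpV : ∀ w, p w ≠ 0 → w ∈ V ∧ x + w ∈ J := by
    intro w hw
    rw [hp] at hw
    by_contra hc
    rw [if_neg hc] at hw
    exact hw rfl
  have hP0 : ∀ u : Fin N → G, 0 ≤ ∏ j, p (u j) := fun u => Finset.prod_nonneg fun j _ => hp0 _
  have hPV : ∀ u : Fin N → G, ∏ j, p (u j) ≠ 0 → ∀ j, u j ∈ V := by
    intro u hu j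
    exact (hpV _ fun h => hu (Finset.prod_eq_zero (mem_univ j) h)).1
  have htot := CUBE.total (N := N) p hp1
  -- the short step
  let f : ℕ → ℝ := fun j => ∑ u : Fin N → G, (∏ i, p (u i)) * NCX.XX D x V u j
  obtain ⟨j, hj, hfj⟩ := NCX.short N Q hN0 f
    (by
      calc f 0 ≤ ∑ u : Fin N → G, (∏ i, p (u i)) * (Q : ℝ) :=
            Finset.sum_le_sum fun u _ => mul_le_mul_of_nonneg_left (NCX.XX_le D x V u 0 Q hQ) (hP0 u)
        _ = Q := by rw [← Finset.sum_mul, htot, one_mul])
    (Finset.sum_nonneg fun u _ => mul_nonneg (hP0 u) (NCX.XX_nonneg _ _ _ _ _))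
  -- the good event
  let good : (Fin N → G) → Prop := fun u =>
    NCX.XX D x V u j - NCX.XX D x V u (j + 1) ≤ κ / 16 ∧ x ∈ NCX.ES D x V u (j + 1)
  have hmark : ∑ u : Fin N → G, (∏ i, p (u i)) *
      (if κ / 16 < NCX.XX D x V u j - NCX.XX D x V u (j + 1) then (1 : ℝ) else 0) ≤ κ / 8 := by
    have h1 : (κ / 16) * ∑ u : Fin N → G, (∏ i, p (u i)) *
        (if κ / 16 < NCX.XX D x V u j - NCX.XX D x V u (j + 1) then (1 : ℝ) else 0) ≤
        f j - f (j + 1) := by
      rw [Finset.mul_sum, ← Finset.sum_sub_distrib]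
      refine Finset.sum_le_sum fun u _ => ?_
      by_cases hu : ∏ i, p (u i) = 0
      · rw [hu]; simp
      · have hm := NCX.XX_succ (D := D) (x := x) hj (hPV u hu ⟨j, hj⟩)
        rw [← mul_sub, mul_left_comm]
        refine mul_le_mul_of_nonneg_left ?_ (hP0 u)
        split_ifs with hc
        · linarith
        · linarith
    have h2 : (Q : ℝ) / N ≤ κ / 16 * (κ / 8) := by
      rw [div_le_iff₀ hNr]
      nlinarith
    have h3 := h1.trans (hfj.trans h2)
    exact le_of_mul_le_mul_left h3 (by positivity)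
  have hex' : ∑ u : Fin N → G, (∏ i, p (u i)) *
      (if x ∉ NCX.ES D x V u (j + 1) then (1 : ℝ) else 0) ≤ κ / 8 := by
    refine le_trans (Finset.sum_le_sum fun u _ => ?_) hexit
    by_cases hm : x ∈ NCX.ES D x V u (j + 1)
    · rw [if_neg (not_not.mpr hm), mul_zero]
      split_ifs
      · exact hP0 u
      · exact le_refl _
    · rw [if_pos hm, mul_one]
      have : ∃ Λ : Finset (Fin N), x + ∑ i ∈ Λ, u i ∉ D := by
        by_contra hc
        push Not at hc
        exact hm (NCX.mem_ES.mpr ⟨by simp, fun Λ _ => hc Λ⟩)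
      rw [if_pos this]
  have hgood : 1 - κ / 4 ≤ ∑ u : Fin N → G, (∏ i, p (u i)) * (if good u then (1 : ℝ) else 0) := by
    have h1 : (1 : ℝ) ≤ ∑ u : Fin N → G, ((∏ i, p (u i)) * (if good u then (1 : ℝ) else 0) +
        (∏ i, p (u i)) *
        (if κ / 16 < NCX.XX D x V u j - NCX.XX D x V u (j + 1) then (1 : ℝ) else 0) +
        (∏ i, p (u i)) * (if x ∉ NCX.ES D x V u (j + 1) then (1 : ℝ) else 0)) := by
      refine htot.symm.le.trans (Finset.sum_le_sum fun u _ => ?_)
      rw [← mul_add, ← mul_add]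
      refine le_mul_of_one_le_right (hP0 u) ?_
      by_cases h2 : κ / 16 < NCX.XX D x V u j - NCX.XX D x V u (j + 1)
      · rw [if_pos h2]
        have : (0 : ℝ) ≤ (if good u then (1 : ℝ) else 0) := by split_ifs <;> norm_num
        have h3 : (0 : ℝ) ≤ (if x ∉ NCX.ES D x V u (j + 1) then (1 : ℝ) else 0) := by
          split_ifs <;> norm_num
        linarith
      · rw [if_neg h2]
        by_cases h3 : x ∈ NCX.ES D x V u (j + 1)
        · have : good u := ⟨not_lt.mp h2, h3⟩
          rw [if_pos this, if_neg (not_not.mpr h3)]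
          norm_num
        · rw [if_pos h3]
          have : (0 : ℝ) ≤ (if good u then (1 : ℝ) else 0) := by split_ifs <;> norm_num
          linarith
    rw [Finset.sum_add_distrib, Finset.sum_add_distrib] at h1
    linarith
  -- condition on the other coordinates
  have hcond : ∃ u : Fin N → G, ∏ i, p (u i) ≠ 0 ∧
      1 - κ / 4 ≤ ∑ w, p w * (if good (Function.update u ⟨j, hj⟩ w) then (1 : ℝ) else 0) := by
    by_contra hc
    push Not at hc
    rw [CUBE.resample_same p hp1 ⟨j, hj⟩] at hgood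
    have h1 : ∑ u : Fin N → G, (∏ i, p (u i)) *
        ∑ w, p w * (if good (Function.update u ⟨j, hj⟩ w) then (1 : ℝ) else 0) <
        ∑ u : Fin N → G, (∏ i, p (u i)) * (1 - κ / 4) := by
      refine Finset.sum_lt_sum (fun u _ => ?_) ?_
      · by_cases hu : ∏ i, p (u i) = 0
        · rw [hu]; simp
        · exact mul_le_mul_of_nonneg_left (hc u hu).le (hP0 u)
      · have : ∃ u : Fin N → G, ∏ i, p (u i) ≠ 0 := by
          by_contra hz
          push Not at hz
          rw [Finset.sum_congr rfl fun u _ => hz u, Finset.sum_const_zero] at htot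
          exact zero_ne_one htot
        obtain ⟨u, hu⟩ := this
        exact ⟨u, mem_univ _, mul_lt_mul_of_pos_left (hc u hu) (lt_of_le_of_ne (hP0 u) (Ne.symm hu))⟩
    rw [← Finset.sum_mul, htot, one_mul] at h1
    linarith
  obtain ⟨u, hu0, hu⟩ := hcond
  have huV := hPV u hu0
  set E := NCX.ES D x V u j with hE
  set S : Finset G := univ.filter fun w => w ∈ V ∧ x + w ∈ J ∧ x ∈ E ∧ x + w ∈ E ∧
    (1 - κ / 16) * (E.card : ℝ) ≤ rr E w with hS
  have hpS : 1 - κ / 4 ≤ ∑ w ∈ S, p w := by
    refine hu.trans ?_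
    rw [hS, Finset.sum_filter]
    refine Finset.sum_le_sum fun w _ => ?_
    by_cases hw : p w = 0
    · rw [hw]; simp
    · obtain ⟨hwV, hwJ⟩ := hpV w hw
      by_cases hg : good (Function.update u ⟨j, hj⟩ w)
      · rw [if_pos hg, mul_one]
        obtain ⟨hg1, hg2⟩ := hg
        have hwV' : Function.update u ⟨j, hj⟩ w ⟨j, hj⟩ ∈ V := by
          rw [Function.update_self]; exact hwV
        have hmem : ∀ y, y ∈ NCX.ES D x V (Function.update u ⟨j, hj⟩ w) (j + 1) ↔
            y ∈ E ∧ y + w ∈ E := by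
          intro y
          rw [NCX.ES_succ hj hwV' y, NCX.ES_update, Function.update_self]
        have hcard : (NCX.ES D x V (Function.update u ⟨j, hj⟩ w) (j + 1)).card = rr E w := by
          unfold rr
          congr 1
          ext y
          rw [hmem, mem_filter]
        obtain ⟨hxE, hxwE⟩ := (hmem x).mp hg2
        have hX1 : NCX.XX D x V (Function.update u ⟨j, hj⟩ w) j = Real.log (E.card : ℝ) := by
          unfold NCX.XX
          rw [NCX.ES_update, if_pos hxE]
        have hX2 : NCX.XX D x V (Function.update u ⟨j, hj⟩ w) (j + 1) = Real.log (rr E w : ℝ) := by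
          unfold NCX.XX
          rw [if_pos hg2, hcard]
        rw [hX1, hX2] at hg1
        have hEpos : (0 : ℝ) < E.card := by exact_mod_cast Finset.card_pos.mpr ⟨x, hxE⟩
        have hrpos : (0 : ℝ) < rr E w := by
          rw [← hcard]
          exact_mod_cast Finset.card_pos.mpr ⟨x, hg2⟩
        have h1 : Real.log ((E.card : ℝ) / rr E w) ≤ κ / 16 := by
          rw [Real.log_div hEpos.ne' hrpos.ne']
          exact hg1
        have h2 : (E.card : ℝ) / rr E w ≤ Real.exp (κ / 16) := by
          rw [← Real.exp_log (div_pos hEpos hrpos)]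
          exact Real.exp_le_exp.mpr h1
        have h3 : (E.card : ℝ) ≤ Real.exp (κ / 16) * rr E w := (div_le_iff₀ hrpos).mp h2
        have h4 : (1 - κ / 16) * Real.exp (κ / 16) ≤ 1 := by
          have h5 : 1 - κ / 16 ≤ Real.exp (-(κ / 16)) := by
            have := Real.add_one_le_exp (-(κ / 16))
            linarith
          calc (1 - κ / 16) * Real.exp (κ / 16) ≤ Real.exp (-(κ / 16)) * Real.exp (κ / 16) :=
                mul_le_mul_of_nonneg_right h5 (Real.exp_pos _).le
            _ = 1 := by rw [← Real.exp_add]; simp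
        have h6 : (1 - κ / 16) * (E.card : ℝ) ≤ rr E w := by
          calc (1 - κ / 16) * (E.card : ℝ) ≤ (1 - κ / 16) * (Real.exp (κ / 16) * rr E w) :=
                mul_le_mul_of_nonneg_left h3 (by linarith)
            _ = ((1 - κ / 16) * Real.exp (κ / 16)) * rr E w := by ring
            _ ≤ 1 * rr E w := mul_le_mul_of_nonneg_right h4 hrpos.le
            _ = rr E w := one_mul _
        rw [if_pos ⟨hwV, hwJ, hxE, hxwE, h6⟩]
      · rw [if_neg hg, mul_zero]
        split_ifs
        · exact hp0 w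
        · exact le_refl _
  have hSne : S.Nonempty := by
    by_contra hc
    rw [Finset.not_nonempty_iff_eq_empty] at hc
    rw [hc, Finset.sum_empty] at hpS
    linarith
  have hxE : x ∈ E := by
    obtain ⟨w, hw⟩ := hSne
    exact (mem_filter.mp hw).2.2.2.1
  have hEpos : (0 : ℝ) < E.card := by exact_mod_cast Finset.card_pos.mpr ⟨x, hxE⟩
  -- masses
  set ν : G → ℝ := fun w => if w ∈ V then μ w else 0 with hν
  set m : ℝ := ∑ w ∈ S, ν w with hm
  have hpν : ∀ w ∈ S, p w = r * ν w := by
    intro w hw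
    have := (mem_filter.mp hw).2
    rw [hp w, if_pos ⟨this.1, this.2.1⟩, hν]
    simp only
    rw [if_pos this.1]
  have hpm : ∑ w ∈ S, p w = r * m := by
    rw [hm, Finset.mul_sum]
    exact Finset.sum_congr rfl hpν
  have hν0 : ∀ w, 0 ≤ ν w := by
    intro w
    simp only [hν]
    split_ifs
    · exact hL.pos w
    · exact le_refl _
  have hm0 : 0 ≤ m := Finset.sum_nonneg fun w _ => hν0 w
  have hrm : 3 / 4 ≤ r * m := by
    rw [← hpm]; linarith
  have hmb : 3 / 8 * b ≤ m := by
    have h1 : r * m ≤ 2 / b * m := mul_le_mul_of_nonneg_right hrb hm0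
    have h2 : 3 / 4 ≤ 2 / b * m := hrm.trans h1
    rw [div_mul_eq_mul_div, le_div_iff₀ hb] at h2
    linarith
  have hmpos : 0 < m := by
    have : 0 < 3 / 8 * b := by positivity
    linarith
  -- the fractional lemma
  have hfind : ∃ (Λ : AddSubgroup G) (x' : G), (∀ h ∈ Λ, x' + h ∈ E) ∧
      (1 - κ / 3) * m < ∑ w ∈ S, if w ∈ Λ then ν w else 0 := by
    by_contra hc
    push Not at hc
    have h1 := hLA G ν ε ((1 - κ / 3) * m) S E hν0 hε ⟨x, hxE⟩
      (by
        intro z hz
        by_cases hzx : z - x ∈ V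
        · have : ∃ Λ : Finset (Fin N), (∀ i ∈ Λ, (i : ℕ) < j) ∧ z + ∑ i ∈ Λ, u i ∉ D := by
            by_contra hc'
            push Not at hc'
            exact hz (NCX.mem_ES.mpr ⟨hzx, fun Λ hΛ => hc' Λ hΛ⟩)
          obtain ⟨Λ, hΛ, hzΛ⟩ := this
          refine le_trans ?_ (hL.closed _ hzΛ)
          unfold TT
          refine Finset.sum_le_sum fun w _ => ?_
          by_cases hzw : z - w ∈ E
          · have h2 : z + ∑ i ∈ Λ, u i - w ∈ D := by
              have := (NCX.mem_ES.mp hzw).2 Λ hΛ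
              have e : z + ∑ i ∈ Λ, u i - w = z - w + ∑ i ∈ Λ, u i := by abel
              rw [e]; exact this
            rw [if_pos hzw, if_pos h2]
            simp only [hν]
            split_ifs
            · exact le_refl _
            · exact hL.pos w
          · rw [if_neg hzw]
            split_ifs
            · exact hL.pos w
            · exact le_refl _
        · refine le_trans (le_of_eq ?_) hε.le
          unfold TT
          refine Finset.sum_eq_zero fun w _ => ?_
          by_cases hzw : z - w ∈ E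
          · have h2 := (NCX.mem_ES.mp hzw).1
            have h3 : w ∉ V := by
              intro hwV
              apply hzx
              have e : z - x = (z - w - x) + w := by abel
              rw [e]
              exact V.add_mem h2 hwV
            rw [if_pos hzw]
            simp only [hν]
            rw [if_neg h3]
          · rw [if_neg hzw])
      (fun Λ x' h => hc Λ x' h)
    have h2 : (1 - κ / 16) * m ≤ ∑ w ∈ S, ν w * ((rr E w : ℝ) / E.card) := by
      rw [hm, Finset.mul_sum]
      refine Finset.sum_le_sum fun w hw => ?_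
      have h3 := (mem_filter.mp hw).2.2.2.2.2
      rw [mul_comm]
      refine mul_le_mul_of_nonneg_left ?_ (hν0 w)
      rw [le_div_iff₀ hEpos]
      exact h3
    have h3 : ((1 - κ / 16) * m) ^ 2 ≤ m * ((1 - κ / 3) * m + 4 * ε * (1 + Real.log E.card)) := by
      refine le_trans ?_ h1
      exact pow_le_pow_left₀ (mul_nonneg (by linarith) hm0) h2 2
    have h4 : 4 * ε * (1 + Real.log E.card) ≤ κ / 12 * m := by
      have h5 : Real.log (E.card : ℝ) ≤ Q := NCX.XX_le.log_le Q hQ E
      have h6 : 4 * ε * (1 + Real.log E.card) ≤ 4 * ε * (1 + Q) :=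
        mul_le_mul_of_nonneg_left (by linarith) (by positivity)
      have h7 : κ * (3 / 8 * b) ≤ κ * m := mul_le_mul_of_nonneg_left hmb hκ.le
      nlinarith
    have h8 : ((1 - κ / 16) * m) ^ 2 ≤ m * ((1 - κ / 4) * m) := by
      refine h3.trans (mul_le_mul_of_nonneg_left ?_ hm0)
      linarith
    have h9 : (1 - κ / 4) * m ^ 2 < (1 - κ / 16) ^ 2 * m ^ 2 := by
      refine mul_lt_mul_of_pos_right ?_ (by positivity)
      nlinarith
    nlinarith
  obtain ⟨Λ, x', hΛE, hΛm⟩ := hfind
  have hrpos : 0 < r := by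
    rcases eq_or_lt_of_le hr with h | h
    · rw [← h, zero_mul] at hrm
      linarith
    · exact h
  have hpΛ : 1 - κ < ∑ w : G, if w ∈ Λ ⊓ V then p w else 0 := by
    have h1 : r * (∑ w ∈ S, if w ∈ Λ then ν w else 0) ≤ ∑ w : G, if w ∈ Λ ⊓ V then p w else 0 := by
      rw [Finset.mul_sum]
      calc ∑ w ∈ S, r * (if w ∈ Λ then ν w else 0)
          ≤ ∑ w ∈ S, (if w ∈ Λ ⊓ V then p w else 0) := by
            refine Finset.sum_le_sum fun w hw => ?_
            have hwV := (mem_filter.mp hw).2.1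
            by_cases hwΛ : w ∈ Λ
            · rw [if_pos hwΛ, if_pos (AddSubgroup.mem_inf.mpr ⟨hwΛ, hwV⟩), hpν w hw]
            · rw [if_neg hwΛ, if_neg (fun h => hwΛ (AddSubgroup.mem_inf.mp h).1), mul_zero]
        _ ≤ ∑ w : G, (if w ∈ Λ ⊓ V then p w else 0) :=
            Finset.sum_le_sum_of_subset_of_nonneg (subset_univ _) fun w _ _ => by
              split_ifs
              · exact hp0 w
              · exact le_refl _
    have h2 : r * ((1 - κ / 3) * m) < r * ∑ w ∈ S, (if w ∈ Λ then ν w else 0) :=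
      mul_lt_mul_of_pos_left hΛm hrpos
    have h3 : (1 - κ / 3) * (1 - κ / 4) ≤ r * ((1 - κ / 3) * m) := by
      have h4 : 1 - κ / 4 ≤ r * m := by rw [← hpm]; exact hpS
      calc (1 - κ / 3) * (1 - κ / 4) ≤ (1 - κ / 3) * (r * m) :=
            mul_le_mul_of_nonneg_left h4 (by linarith)
        _ = r * ((1 - κ / 3) * m) := by ring
    have h5 : 1 - κ ≤ (1 - κ / 3) * (1 - κ / 4) := by nlinarith
    linarith
  have hVΛ : V ≤ Λ := by
    have hle : Λ ⊓ V ≤ V := inf_le_right
    rcases hle.lt_or_eq with h | h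
    · exact absurd (hmin _ h) (not_le.mpr hpΛ)
    · rw [← h]
      exact inf_le_left
  intro h hh
  have hx'E := hΛE 0 Λ.zero_mem
  rw [add_zero] at hx'E
  have hx'x := (NCX.mem_ES.mp hx'E).1
  have hmem : x - x' + h ∈ V := by
    have e : x - x' + h = -(x' - x) + h := by abel
    rw [e]
    exact V.add_mem (V.neg_mem hx'x) hh
  have h1 := hΛE _ (hVΛ hmem)
  have h2 := (NCX.mem_ES.mp h1).2 ∅ (by simp)
  rw [Finset.sum_empty, add_zero] at h2
  have e : x' + (x - x' + h) = x + h := by abel
  rw [e] at h2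
  exact h2

end Pool.Agent.Helper26.MCP
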